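import Pool.Agent.R739.FunEq.Final

/-!
# All continuous solutions of `f (x + f x) = f x + f (f x)`

A function `f : ℝ → ℝ` is a continuous solution if and only if it is linear, or it is given by
`f x = α x` for `x ≥ 0` and `f x = β x` for `x ≤ 0` with constants `α, β ≥ 0`.
-/

namespace Pool.Agent.Results.MP_12983e_an.AllContinuousSolutions

open Pool.Agent.R739.FunEq

/-- **Classification of the continuous solutions of `(∗)`.** -/
theorem result (f : ℝ → ℝ) :
    (Continuous f ∧ ∀ x : ℝ, f (x + f x) = f x + f (f x)) ↔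
      ((∃ a : ℝ, ∀ x : ℝ, f x = a * x) ∨
        ∃ α β : ℝ, 0 ≤ α ∧ 0 ≤ β ∧ (∀ x : ℝ, 0 ≤ x → f x = α * x) ∧
          (∀ x : ℝ, x ≤ 0 → f x = β * x)) := by
  constructor
  · rintro ⟨hc, he⟩
    exact Sol.classify ⟨hc, he⟩
  · rintro (⟨a, ha⟩ | ⟨α, β, hα, hβ, h1, h2⟩)
    · have hf : f = fun x => a * x := funext ha
      refine ⟨by rw [hf]; fun_prop, fun x => ?_⟩
      simp only [ha]
      ring
    · have hf : f = fun x => α * max x 0 + β * min x 0 := by
        funext x
        rcases le_total 0 x with hx | hx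
        · rw [h1 x hx, max_eq_left hx, min_eq_right hx]; ring
        · rw [h2 x hx, max_eq_right hx, min_eq_left hx]; ring
      refine ⟨by rw [hf]; fun_prop, fun x => ?_⟩
      rcases le_total 0 x with hx | hx
      · have e1 : 0 ≤ α * x := mul_nonneg hα hx
        rw [h1 x hx, h1 (x + α * x) (by linarith), h1 (α * x) e1]
        ring
      · have e1 : β * x ≤ 0 := mul_nonpos_of_nonneg_of_nonpos hβ hx
        rw [h2 x hx, h2 (x + β * x) (by linarith), h2 (β * x) e1]
        ring

end Pool.Agent.Results.MP_12983e_an.AllContinuousSolutions
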